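import Pool.Agent.H30.GMC.StT

/-!
Project GMC, module WFAN: the variety `ℙ(1,1,1,2)` is weak Fano.
-/

open AlgebraicGeometry CategoryTheory FCB MvPolynomial

namespace GMC

namespace WFAN

theorem ord_one {X : Scheme.{0}} [IsIntegral X] [IsLocallyNoetherian X] (x : X) :
    Scheme.ord (1 : X.functionField) x = 0 := by
  have h := Scheme.ord_mul (X := X) (x := x) (f := (1 : X.functionField))
    (g := (1 : X.functionField)) one_ne_zero one_ne_zero
  rw [mul_one] at h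
  omega

end WFAN

theorem wfan_thm (hASUM : S_ASUM) (hXNOR : S_XNOR) (hXIEX : S_XIEX) (hXDEX : S_XDEX)
    (hXAMP : S_XAMP) (hXCAN : S_XCAN) : S_WFAN := by
  intro M
  obtain ⟨⟨ξ, hξ⟩, -⟩ := hXIEX M
  obtain ⟨D, hD⟩ := hXDEX M
  have hneg : -((-5 : ℤ) • (Finsupp.single D 1 : WeilDiv M.X)) =
      (5 : ℕ) • (Finsupp.single D 1 : WeilDiv M.X) := by
    rw [neg_smul, neg_neg]
    exact_mod_cast rfl
  refine ⟨hXNOR M, (-5 : ℤ) • (Finsupp.single D 1 : WeilDiv M.X), ?_, ?_, ?_⟩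
  · refine ⟨3, ξ, 1, one_ne_zero, fun p => ?_⟩
    rw [WFAN.ord_one, sub_zero]
    exact hXCAN M ξ hξ D hD p
  · intro H hH n
    rw [hneg]
    rcases Nat.eq_zero_or_pos n with rfl | hn
    · rw [zero_smul, add_zero]
      exact hH
    · rw [smul_smul]
      exact (hASUM M.V).1 _ _ hH (hXAMP M D hD (n * 5) (by positivity))
  · rw [hneg]
    refine ⟨1, (5 : ℕ) • (Finsupp.single D 1 : WeilDiv M.X), 0, one_pos,
      hXAMP M D hD 5 (by norm_num), le_refl _, 1, one_ne_zero, fun p => ?_⟩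
    rw [WFAN.ord_one, add_zero, add_zero, one_smul]

end GMC
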